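import Pool.Agent.Lib.H1F.Defs

/-!
# H1F, NLS, chunk NL3: the ring `W_2(k)`
-/

universe u

namespace H1F

variable (p : ℕ) [Fact p.Prime] (k : Type u) [Field k] [CharP k p] [PerfectRing k p]

theorem residue_surjective (m : ℕ) (hm : 0 < m) : Function.Surjective (residue p k m hm) := by
  intro x
  refine ⟨TruncatedWittVector.mk p (fun _ ↦ x), ?_⟩
  change (TruncatedWittVector.mk p (fun _ ↦ x)).coeff ⟨0, hm⟩ = x
  rw [TruncatedWittVector.coeff_mk]

omit [PerfectRing k p] in
theorem NL3_coeff_zero (y : TruncatedWittVector p 2 k) :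
    ((p : TruncatedWittVector p 2 k) * y).coeff 0 = 0 := by
  obtain ⟨y, rfl⟩ := WittVector.truncate_surjective p 2 k y
  have h : (p : TruncatedWittVector p 2 k) * WittVector.truncate 2 y
      = WittVector.truncate 2 (y * (p : WittVector p k)) := by
    rw [map_mul, map_natCast, mul_comm]
  rw [h, WittVector.coeff_truncate]
  exact WittVector.mul_charP_coeff_zero y

omit [PerfectRing k p] in
theorem NL3_coeff_one (y : TruncatedWittVector p 2 k) :
    ((p : TruncatedWittVector p 2 k) * y).coeff 1 = y.coeff 0 ^ p := by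
  obtain ⟨y, rfl⟩ := WittVector.truncate_surjective p 2 k y
  have h : (p : TruncatedWittVector p 2 k) * WittVector.truncate 2 y
      = WittVector.truncate 2 (y * (p : WittVector p k)) := by
    rw [map_mul, map_natCast, mul_comm]
  rw [h, WittVector.coeff_truncate, WittVector.coeff_truncate]
  exact WittVector.mul_charP_coeff_succ y 0

/-- The kernel of `W_2(k) → k` is generated by `p = V F 1`: `(0, b) = p * (b^(1/p), 0)`. -/
theorem residue_ker (x : TruncatedWittVector p 2 k) :
    residue p k 2 (by norm_num) x = 0 ↔ ∃ y, x = (p : TruncatedWittVector p 2 k) * y := by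
  constructor
  · intro h
    have h0 : x.coeff 0 = 0 := h
    refine ⟨TruncatedWittVector.mk p (fun _ ↦ (frobeniusEquiv k p).symm (x.coeff 1)), ?_⟩
    apply TruncatedWittVector.ext
    intro i
    fin_cases i
    · change x.coeff 0 = _
      rw [h0]
      exact (NL3_coeff_zero p k _).symm
    · change x.coeff 1 = _
      refine Eq.trans ?_ (NL3_coeff_one p k _).symm
      rw [TruncatedWittVector.coeff_mk]
      exact (frobeniusEquiv_symm_pow_p k p (x.coeff 1)).symm
  · rintro ⟨y, rfl⟩
    exact NL3_coeff_zero p k y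

omit [PerfectRing k p] in
/-- `p (a, b) = (0, a ^ p)`. -/
theorem NL3_ann (x : TruncatedWittVector p 2 k) :
    (p : TruncatedWittVector p 2 k) * x = 0 ↔ residue p k 2 (by norm_num) x = 0 := by
  constructor
  · intro h
    have h1 := NL3_coeff_one p k x
    rw [h, TruncatedWittVector.coeff_zero] at h1
    exact pow_eq_zero_iff (Nat.Prime.ne_zero Fact.out) |>.1 h1.symm
  · intro h
    have h0 : x.coeff 0 = 0 := h
    apply TruncatedWittVector.ext
    intro i
    fin_cases i
    · change ((p : TruncatedWittVector p 2 k) * x).coeff 0 = _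
      rw [NL3_coeff_zero, TruncatedWittVector.coeff_zero]
    · change ((p : TruncatedWittVector p 2 k) * x).coeff 1 = _
      rw [NL3_coeff_one, TruncatedWittVector.coeff_zero, h0,
        zero_pow (Nat.Prime.ne_zero Fact.out)]

/-- `p (a, b) = (0, a ^ p)`. -/
theorem residue_ann (x : TruncatedWittVector p 2 k) :
    (p : TruncatedWittVector p 2 k) * x = 0 ↔ residue p k 2 (by norm_num) x = 0 :=
  NL3_ann p k x

end H1F
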