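import Pool.Agent.Lib.H1F.FLIP.Loc
import Pool.Agent.Lib.H1F.FLIP.F11
import Pool.Agent.Lib.H1F.N.N0

/-!
# H1F, part NLS: from a flat lift of the scheme to a lifted family of rings (definitions)
-/

open CategoryTheory CategoryTheory.Limits AlgebraicGeometry Order

universe u

namespace H1F

/-- A flat lift modulo `p ^ 2` of the family of local rings `O x ⊆ K`: `L` is the local ring of
the lift at the generic point, `M x ⊆ L` its local ring at `x`. -/
structure LocLift (p : ℕ) {k : Type u} {K : Type u} [Field k] [Field K] [Algebra k K]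
    (X : Type u) [TopologicalSpace X] (O : X → Subalgebra k K) where
  /-- the local ring of the lift at the generic point -/
  L : Type u
  [commRing : CommRing L]
  /-- the reduction map -/
  π : L →+* K
  surj : Function.Surjective π
  ker : ∀ a, π a = 0 ↔ ∃ b, a = (p : L) * b
  ann : ∀ a, (p : L) * a = 0 ↔ π a = 0
  /-- the local rings of the lift -/
  M : X → Subring L
  map : ∀ x, ∀ a ∈ M x, π a ∈ O x
  lift : ∀ x, ∀ r ∈ O x, ∃ a ∈ M x, π a = r
  ker_loc : ∀ x, ∀ a ∈ M x, π a = 0 → ∃ b ∈ M x, a = (p : L) * b
  isOpen : ∀ a, IsOpen {x | a ∈ M x}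

attribute [instance] LocLift.commRing

end H1F
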