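import Pool.Agent.Lib.H1F.NLS.NL4
import Pool.Agent.Lib.H1F.NLS.NL0
import Pool.Agent.Lib.H1F.AT.A4

/-!
# H1F, NLS, chunk NL5: from a flat lift of the scheme to a lift of its local rings
-/

open CategoryTheory CategoryTheory.Limits AlgebraicGeometry Order

universe u

namespace H1F

/-- An element of a stalk is the germ of a section over an affine open set, contained in a given
neighbourhood. -/
theorem NL5_germ {𝒳 : Scheme.{u}} {y : 𝒳} (a : 𝒳.presheaf.stalk y) (U : 𝒳.Opens) (hU : y ∈ U) :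
    ∃ (V : 𝒳.Opens) (_ : V ≤ U) (_ : IsAffineOpen V) (hy : y ∈ V) (s : Γ(𝒳, V)),
      (𝒳.presheaf.germ V y hy).hom s = a := by
  obtain ⟨U', hU', hy, s, hs⟩ := TopCat.Presheaf.exists_le_germ_eq 𝒳.presheaf a hU
  obtain ⟨V, hV, hyV, hVU⟩ := TopologicalSpace.Opens.isBasis_iff_nbhd.mp 𝒳.isBasis_affineOpens hy
  refine ⟨V, hVU.trans hU', hV, hyV, (𝒳.presheaf.map (homOfLE hVU).op).hom s, ?_⟩
  rw [← hs]
  exact TopCat.Presheaf.germ_res_apply 𝒳.presheaf (homOfLE hVU) y hyV s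

section

variable {W k : Type u} [CommRing W] [Field k] (p : ℕ) (ρ : W →+* k) (hρ : Function.Surjective ρ)
  (hker : ∀ x, ρ x = 0 ↔ ∃ y, x = (p : W) * y) (hann : ∀ x, (p : W) * x = 0 ↔ ρ x = 0)
  {𝒳 X : Scheme.{u}} [IsIntegral X] (i : X ⟶ 𝒳) (f : X ⟶ Spec (CommRingCat.of k))
  (g : 𝒳 ⟶ Spec (CommRingCat.of W))
  (hp : IsPullback i f g (Spec.map (CommRingCat.ofHom ρ)))

/-- The generic point specializes to every point. -/
theorem NL5_spec (x : X) : genericPoint X ⤳ x := (genericPoint_spec X).specializes trivial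

/-- If the image of the germ of `s` in the function field vanishes, so does `i^* s`. -/
theorem NL5_app_eq_zero (V : 𝒳.Opens) (hV : i (genericPoint X) ∈ V) (s : Γ(𝒳, V))
    (h : (i.stalkMap (genericPoint X)).hom ((𝒳.presheaf.germ V _ hV).hom s) = 0) :
    (i.app V).hom s = 0 := by
  have h1 : (X.presheaf.germ (i ⁻¹ᵁ V) (genericPoint X) hV).hom ((i.app V).hom s) = 0 := by
    rw [← h]
    exact (Scheme.Hom.germ_stalkMap_apply i V _ hV s).symm
  have h2 := germ_injective_of_isIntegral X (genericPoint X) (U := i ⁻¹ᵁ V) hV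
  exact h2 (h1.trans (map_zero _).symm)

include hρ hp hker in
/-- If the image of the germ of `s` in the function field vanishes, `s` is a multiple of `p`. -/
theorem NL5_ker (V : 𝒳.Opens) (hVa : IsAffineOpen V) (hV : i (genericPoint X) ∈ V) (s : Γ(𝒳, V))
    (h : (i.stalkMap (genericPoint X)).hom ((𝒳.presheaf.germ V _ hV).hom s) = 0) :
    ∃ t, s = (p : Γ(𝒳, V)) * t := by
  have h1 := NL5_app_eq_zero i V hV s h
  obtain ⟨-, h2⟩ := sections_reduction ρ hρ hker i f g hp V hVa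
  obtain ⟨t, ht⟩ := (h2 s).1 h1
  refine ⟨t, ?_⟩
  rw [map_natCast] at ht
  exact ht

include hker hann in
/-- Flatness. -/
theorem NL5_flat [Flat g] (V : 𝒳.Opens) (hVa : IsAffineOpen V) (s : Γ(𝒳, V))
    (h : (p : Γ(𝒳, V)) * s = 0) : ∃ t, s = (p : Γ(𝒳, V)) * t := by
  have h1 := sections_flat ρ (ϖ := (p : W)) hker hann g V hVa s (by rw [map_natCast]; exact h)
  obtain ⟨t, ht⟩ := h1
  refine ⟨t, ?_⟩
  rw [map_natCast] at ht
  exact ht

include g hann in
/-- `p * p = 0` in the stalks. -/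
theorem NL5_sq [CharP k p] (y : 𝒳) : (p : 𝒳.presheaf.stalk y) * (p : 𝒳.presheaf.stalk y) = 0 := by
  have h1 : (p : W) * (p : W) = 0 := (hann _).2 (by rw [map_natCast, CharP.cast_eq_zero])
  have h2 := congrArg ((Scheme.ΓSpecIso (CommRingCat.of W)).inv ≫ g.appTop ≫
    𝒳.presheaf.germ ⊤ y trivial).hom h1
  rw [map_mul, map_zero, map_natCast] at h2
  exact h2

end

/-- `L` is the stalk of `𝒳` at `i ξ` (`ξ` the generic point of `X`), `π = e ∘ stalkMap`, and `M x` is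
the range of the specialization map `𝒳.presheaf.stalkSpecializes` from the stalk at `i x`.
`surj`, `lift`: the stalk maps of the closed immersion `i` are surjective.  `ker`, `ker_loc`: an
element of the stalk at `i x` is the germ of a section `s` over an affine open `V`; if its image in
the function field vanishes, then `i^* s = 0`, as `X` is integral, so `s` is a multiple of `p`
(`sections_reduction`, with `ϖ = p`, a natural number, so the messy coefficient is `p`).  `ann`: if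
`p a = 0` then after shrinking `V` `p s = 0` and `sections_flat` applies; conversely
`p * p = 0`.  `isOpen`: if `a` is the germ of a section over `V`, it lies in `M x'` for all
`x'` with `i x' ∈ V`. -/
theorem exists_locLift {W k K : Type u} [CommRing W] [Field k] [Field K] [Algebra k K] (p : ℕ)
    [Fact p.Prime] [CharP k p] (ρ : W →+* k) (hρ : Function.Surjective ρ)
    (hker : ∀ x, ρ x = 0 ↔ ∃ y, x = (p : W) * y) (hann : ∀ x, (p : W) * x = 0 ↔ ρ x = 0)
    {X : Over (Spec (CommRingCat.of k))} [IsIntegral X.left] (e : X.left.functionField ≃ₐ[k] K)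
    {𝒳 : Scheme.{u}} (i : X.left ⟶ 𝒳) (g : 𝒳 ⟶ Spec (CommRingCat.of W)) [Flat g]
    (hp : IsPullback i X.hom g (Spec.map (CommRingCat.ofHom ρ))) :
    Nonempty (LocLift p X.left (fun x ↦ (localRing k X x).map e.toAlgHom)) := by
  have hci : IsClosedImmersion i := isClosedImmersion_of_isPullback ρ hρ i X.hom g hp
  let ξ : X.left := genericPoint X.left
  have hξ : ∀ x : X.left, ξ ⤳ x := NL5_spec
  let σ : ∀ x, 𝒳.presheaf.stalk (i x) →+* 𝒳.presheaf.stalk (i ξ) := fun x ↦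
    (𝒳.presheaf.stalkSpecializes (i.base.hom.map_specializes (hξ x))).hom
  let π : 𝒳.presheaf.stalk (i ξ) →+* K := e.toRingEquiv.toRingHom.comp (i.stalkMap ξ).hom
  have hπ : ∀ a, π a = e ((i.stalkMap ξ).hom a) := fun a ↦ rfl
  have hπ0 : ∀ a, π a = 0 ↔ (i.stalkMap ξ).hom a = 0 := fun a ↦ by
    rw [hπ]
    exact map_eq_zero_iff e e.injective
  have hσπ : ∀ x b, π (σ x b) = e (algebraMap _ _ ((i.stalkMap x).hom b)) := fun x b ↦ by
    rw [hπ]
    exact congrArg e (Scheme.Hom.stalkSpecializes_stalkMap_apply i ξ x (hξ x) b)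
  have hσg : ∀ x (V : 𝒳.Opens) (hx : i x ∈ V) (hV : i ξ ∈ V) (s : Γ(𝒳, V)),
      σ x ((𝒳.presheaf.germ V _ hx).hom s) = (𝒳.presheaf.germ V _ hV).hom s := fun x V hx hV s ↦
    congrArg (fun q : Γ(𝒳, V) ⟶ 𝒳.presheaf.stalk (i ξ) ↦ q.hom s)
      (𝒳.presheaf.germ_stalkSpecializes hx (i.base.hom.map_specializes (hξ x)))
  have hmem : ∀ x (V : 𝒳.Opens), i x ∈ V → i ξ ∈ V := fun x V hx ↦
    (i.base.hom.map_specializes (hξ x)).mem_open V.2 hx
  have hpK : (p : K) = 0 := by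
    have := congrArg (algebraMap k K) (CharP.cast_eq_zero k p)
    rwa [map_natCast, map_zero] at this
  -- the kernel
  have hkerx : ∀ x (b : 𝒳.presheaf.stalk (i x)), π (σ x b) = 0 →
      ∃ c, b = (p : 𝒳.presheaf.stalk (i x)) * c := by
    intro x b hb
    obtain ⟨V, -, hVa, hx, s, rfl⟩ := NL5_germ b ⊤ trivial
    rw [hσg x V hx (hmem x V hx), hπ0] at hb
    obtain ⟨t, ht⟩ := NL5_ker p ρ hρ hker i X.hom g hp V hVa (hmem x V hx) s hb
    refine ⟨(𝒳.presheaf.germ V _ hx).hom t, ?_⟩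
    rw [ht, map_mul, map_natCast]
  have hσξ : ∀ a, ∃ b, σ ξ b = a := fun a ↦ by
    refine ⟨a, ?_⟩
    have h1 : 𝒳.presheaf.stalkSpecializes (i.base.hom.map_specializes (hξ ξ)) = 𝟙 _ :=
      𝒳.presheaf.stalkSpecializes_refl (i ξ)
    exact congrArg (fun q ↦ q.hom a) h1
  have hker' : ∀ a, π a = 0 → ∃ b, a = (p : 𝒳.presheaf.stalk (i ξ)) * b := by
    intro a ha
    obtain ⟨b, rfl⟩ := hσξ a
    obtain ⟨c, rfl⟩ := hkerx ξ b ha
    exact ⟨σ ξ c, by rw [map_mul, map_natCast]⟩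
  refine ⟨⟨𝒳.presheaf.stalk (i ξ), π, ?_, ?_, ?_, fun x ↦ (σ x).range, ?_, ?_, ?_, ?_⟩⟩
  · intro c
    obtain ⟨a, ha⟩ := i.stalkMap_surjective ξ (e.symm c)
    exact ⟨a, by rw [hπ]; exact (congrArg e ha).trans (e.apply_symm_apply c)⟩
  · intro a
    refine ⟨hker' a, ?_⟩
    rintro ⟨b, rfl⟩
    rw [map_mul, map_natCast, hpK, zero_mul]
  · intro a
    constructor
    · intro ha
      obtain ⟨V, -, hVa, hx, s, rfl⟩ := NL5_germ a ⊤ trivial
      have h1 : (𝒳.presheaf.germ V _ hx).hom ((p : Γ(𝒳, V)) * s) =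
          (𝒳.presheaf.germ V _ hx).hom 0 := by
        rw [map_mul, map_natCast, ha, map_zero]
      obtain ⟨V', hx', iU, iV, h2⟩ := 𝒳.presheaf.germ_eq _ hx hx _ _ h1
      obtain ⟨V₂, hV₂, hx₂, hVV⟩ := TopologicalSpace.Opens.isBasis_iff_nbhd.mp 𝒳.isBasis_affineOpens hx'
      have h3 : (p : Γ(𝒳, V₂)) * (𝒳.presheaf.map (homOfLE hVV ≫ iU).op).hom s = 0 := by
        have h4 := congrArg (𝒳.presheaf.map (homOfLE hVV).op).hom h2
        have h5 : (𝒳.presheaf.map (homOfLE hVV ≫ iU).op).hom ((p : Γ(𝒳, V)) * s) = 0 := by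
          rw [op_comp, 𝒳.presheaf.map_comp]
          refine h4.trans ?_
          change (𝒳.presheaf.map (homOfLE hVV).op).hom ((𝒳.presheaf.map iV.op).hom 0) = 0
          rw [map_zero, map_zero]
        rw [map_mul, map_natCast] at h5
        exact h5
      obtain ⟨t, ht⟩ := NL5_flat p ρ hker hann g V₂ hV₂ _ h3
      have h6 : (𝒳.presheaf.germ V _ hx).hom s = (𝒳.presheaf.germ V₂ _ hx₂).hom
          ((𝒳.presheaf.map (homOfLE hVV ≫ iU).op).hom s) :=
        (TopCat.Presheaf.germ_res_apply 𝒳.presheaf (homOfLE hVV ≫ iU) _ hx₂ s).symm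
      rw [h6, ht, map_mul, map_natCast, map_mul, map_natCast, hpK, zero_mul]
    · intro ha
      obtain ⟨b, rfl⟩ := hker' a ha
      rw [← mul_assoc, NL5_sq p ρ hann g (i ξ), zero_mul]
  · rintro x _ ⟨b, rfl⟩
    rw [hσπ]
    exact ⟨_, (mem_localRing X x _).2 ⟨_, rfl⟩, rfl⟩
  · rintro x _ ⟨f, hf, rfl⟩
    obtain ⟨s, rfl⟩ := (mem_localRing X x _).1 hf
    obtain ⟨b, hb⟩ := i.stalkMap_surjective x s
    refine ⟨σ x b, ⟨b, rfl⟩, ?_⟩
    rw [hσπ]
    exact congrArg (fun s ↦ e (algebraMap _ _ s)) hb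
  · rintro x _ ⟨b, rfl⟩ hb
    obtain ⟨c, rfl⟩ := hkerx x b hb
    exact ⟨σ x c, ⟨c, rfl⟩, by rw [map_mul, map_natCast]⟩
  · intro a
    rw [isOpen_iff_forall_mem_open]
    rintro x ⟨b, rfl⟩
    obtain ⟨V, -, hVa, hx, s, rfl⟩ := NL5_germ b ⊤ trivial
    refine ⟨i ⁻¹ᵁ V, ?_, (i ⁻¹ᵁ V).2, hx⟩
    intro x' hx'
    refine ⟨(𝒳.presheaf.germ V _ hx').hom s, ?_⟩
    rw [hσg x' V hx' (hmem x V hx), hσg x V hx (hmem x V hx)]

/-- From `LiftsOver` to a pullback square. -/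
theorem exists_pullback_of_liftsOver (p : ℕ) [Fact p.Prime] {k : Type u} [Field k] (m : ℕ)
    (hm : 0 < m) {X : Over (Spec (CommRingCat.of k))} (h : LiftsOver p k m hm X) :
    ∃ (𝒳 : Scheme.{u}) (g : 𝒳 ⟶ Spec (CommRingCat.of (TruncatedWittVector p m k)))
      (i : X.left ⟶ 𝒳), Flat g ∧
      IsPullback i X.hom g (Spec.map (CommRingCat.ofHom (residue p k m hm))) := by
  obtain ⟨𝒳, g, hg, ⟨φ⟩⟩ := h
  refine ⟨𝒳, g, φ.inv.left ≫ pullback.fst g _, hg, ?_⟩
  have h1 := IsPullback.of_hasPullback g (Spec.map (CommRingCat.ofHom (residue p k m hm)))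
  let e : pullback g (Spec.map (CommRingCat.ofHom (residue p k m hm))) ≅ X.left :=
    (Over.forget _).mapIso φ
  refine h1.of_iso e (Iso.refl _) (Iso.refl _) (Iso.refl _) ?_ ?_ ?_ ?_
  · change pullback.fst g _ ≫ 𝟙 _ = φ.hom.left ≫ φ.inv.left ≫ pullback.fst g _
    rw [← Category.assoc, ← Over.comp_left, φ.hom_inv_id, Category.comp_id]
    exact (Category.id_comp _).symm
  · change pullback.snd g _ ≫ 𝟙 _ = φ.hom.left ≫ X.hom
    rw [Over.w φ.hom, Category.comp_id]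
    rfl
  · change g ≫ 𝟙 _ = 𝟙 _ ≫ g
    rw [Category.comp_id, Category.id_comp]
  · change Spec.map _ ≫ 𝟙 _ = 𝟙 _ ≫ Spec.map _
    rw [Category.comp_id, Category.id_comp]

end H1F
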