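import Pool.Agent.Lib.H1F.NLS.NL2
import Pool.Agent.Lib.H1F.NLS.NL3
import Pool.Agent.Lib.H1F.NLS.NL5
import Pool.Agent.Lib.H1F.N.N38

/-!
# H1F, NLS, chunk NL6: `X⁺` does not lift
-/

open CategoryTheory CategoryTheory.Limits AlgebraicGeometry Order

universe u

namespace H1F

theorem NL6_inX' {c : Ch} (hc : c.inV) : c.inX' := by
  cases c <;> trivial

/-- Assembly: `exists_pullback_of_liftsOver`, `residue_surjective`, `residue_ker`, `residue_ann`,
`exists_locLift`, `exists_liftedFamily`, `LiftedFamily.restrict` (to the charts of `V⁺`),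
`no_lifted_family`. -/
theorem not_liftsOver (p : ℕ) [Fact p.Prime] (hp : 5 ≤ p) {k : Type u} [Field k] [IsAlgClosed k]
    [CharP k p] {K : Type u} [Field K] [Algebra k K] {A v w : K}
    (h : AlgebraicIndependent k ![A, v, w]) [Finite {c : Ch // c.inX'}]
    [Nonempty {c : Ch // c.inX'}] {X : Over (Spec (CommRingCat.of k))} [IsIntegral X.left]
    (a : Atlas (fun c : {c : Ch // c.inX'} ↦ ring k p A v w c.1) X)
    (hR : ∀ c : {c : Ch // c.inX'}, IsFractionRing (ring k p A v w c.1) K)
    (e : X.left.functionField ≃ₐ[k] K)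
    (hL : FLIP.LocData a (fun x ↦ (localRing k X x).map e.toAlgHom)) :
    ¬ LiftsOver p k 2 (by norm_num) X := by
  intro hlift
  obtain ⟨𝒳, g, i, hflat, hpb⟩ := exists_pullback_of_liftsOver p 2 (by norm_num) hlift
  obtain ⟨F⟩ := exists_locLift p (residue p k 2 (by norm_num))
    (residue_surjective p k 2 (by norm_num)) (residue_ker p k) (residue_ann p k) e i g hpb
  obtain ⟨F'⟩ := F.exists_liftedFamily hL hR
  obtain ⟨F''⟩ := F'.restrict (fun c : {c : Ch // c.inV} ↦
    (⟨c.1, NL6_inX' c.2⟩ : {c : Ch // c.inX'}))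
  exact no_lifted_family p hp h F''

end H1F
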