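import Pool.Agent.Lib.H1F.NLS.NL0
import Pool.Agent.Lib.H1F.N.N4
import Pool.Agent.Lib.H1F.FLIP.F10

/-!
# H1F, NLS, chunk NL1: functions on the intersection of two charts
-/

open CategoryTheory CategoryTheory.Limits AlgebraicGeometry Order

universe u

namespace H1F

variable {k : Type u} [Field k] {K : Type u} [Field K] [Algebra k K]
  {ι : Type} [Finite ι] [Nonempty ι] {R : ι → Subalgebra k K}
  {X : Over (Spec (CommRingCat.of k))} {a : Atlas R X} {O : X.left → Subalgebra k K}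

/-- the ideal of denominators of `r` -/
def NL1_den (T : Subalgebra k K) (r : K) : Ideal T where
  carrier := {y | r * y ∈ T}
  zero_mem' := by
    change r * ((0 : T) : K) ∈ T
    rw [ZeroMemClass.coe_zero, mul_zero]
    exact zero_mem _
  add_mem' := by
    intro x y hx hy
    change r * ((x + y : T) : K) ∈ T
    have e : r * ((x + y : T) : K) = r * x + r * y := by
      rw [AddMemClass.coe_add, mul_add]
    rw [e]
    exact add_mem hx hy
  smul_mem' := by
    intro c x hx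
    change r * ((c • x : T) : K) ∈ T
    have e : r * ((c • x : T) : K) = c * (r * x) := by
      rw [smul_eq_mul, MulMemClass.coe_mul]
      ring
    rw [e]
    exact mul_mem c.2 hx

theorem NL1_mem (T : Subalgebra k K) (r : K)
    (h : ∀ P : Ideal T, P.IsPrime → ∃ x y : T, y ∉ P ∧ r * y = x) : r ∈ T := by
  by_contra hr
  have h1 : NL1_den T r ≠ ⊤ := by
    intro h2
    have h3 : (1 : T) ∈ NL1_den T r := by rw [h2]; exact Submodule.mem_top
    have h4 : r * ((1 : T) : K) ∈ T := h3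
    rw [OneMemClass.coe_one, mul_one] at h4
    exact hr h4
  obtain ⟨M, hM, hle⟩ := Ideal.exists_le_maximal _ h1
  obtain ⟨x, y, hy, hxy⟩ := h M hM.isPrime
  refine hy (hle ?_)
  change r * (y : K) ∈ T
  rw [hxy]
  exact x.2

/-- An element of `K` which lies in all localizations of a domain `T` at primes lies in `T`. -/
theorem mem_of_forall_prime (T : Subalgebra k K) [IsFractionRing T K] (r : K)
    (h : ∀ P : Ideal T, P.IsPrime → ∃ x y : T, y ∉ P ∧ r * y = x) : r ∈ T :=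
  NL1_mem T r h

/-- An element which is regular at the image of a point of `Spec T`, `R i ≤ T`, lies in the
localization of `T` at this point. -/
theorem NL1_frac (h : FLIP.LocData a O) (i : ι) (T : Subalgebra k K) (hT : R i ≤ T) (z : SpecS T)
    (r : K) (hr : r ∈ O (a.c i (specIncl hT z))) :
    ∃ x y : T, y ∉ PrimeSpectrum.asIdeal z ∧ r * y = x := by
  obtain ⟨r1, hr1, s, hs, hs0, hsi, rfl⟩ := (h.loc i _ r).1 hr
  refine ⟨⟨r1, hT hr1⟩, ⟨s, hT hs⟩, ?_, ?_⟩
  · intro hcon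
    have h1 : (⟨s, hs⟩ : R i) ∈ PrimeSpectrum.asIdeal (specIncl hT z) := hcon
    rcases (h.prime i _ _).1 h1 with h2 | h2
    · exact hs0 h2
    · exact h2 hsi
  · change r1 * s⁻¹ * s = r1
    rw [mul_assoc, inv_mul_cancel₀ hs0, mul_one]

/-- `r` lies in `R i ⊔ R j` if it is regular at all points of the intersection of the charts. -/
theorem mem_sup_of_forall (h : FLIP.LocData a O) (hR : ∀ i, IsFractionRing (R i) K) (i j : ι)
    (r : K) (hr : ∀ x ∈ Set.range (a.c i), x ∈ Set.range (a.c j) → r ∈ O x) :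
    r ∈ R i ⊔ R j := by
  refine NL1_mem _ r fun P hP ↦ ?_
  let z : SpecS (R i ⊔ R j) := ⟨P, hP⟩
  refine NL1_frac h i (R i ⊔ R j) le_sup_left z r (hr _ ⟨_, rfl⟩ ?_)
  refine ⟨specIncl (le_sup_right : R j ≤ R i ⊔ R j) z, ?_⟩
  exact (congrArg (fun q : SpecS (R i ⊔ R j) ⟶ X.left ↦ q z)
    (FLIP.glue a i j (R i ⊔ R j) le_sup_left le_sup_right)).symm

theorem mem_of_forall (h : FLIP.LocData a O) (hR : ∀ i, IsFractionRing (R i) K) (i : ι)
    (r : K) (hr : ∀ x ∈ Set.range (a.c i), r ∈ O x) : r ∈ R i := by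
  refine NL1_mem _ r fun P hP ↦ ?_
  exact NL1_frac h i (R i) le_rfl ⟨P, hP⟩ r (hr _ ⟨_, rfl⟩)

/-- `r` lies in `R i [1/g, 1/g']` if it is regular at all points of the chart `i` where `g`, `g'` are
invertible. -/
theorem mem_away_of_forall (h : FLIP.LocData a O) (hR : ∀ i, IsFractionRing (R i) K) (i : ι)
    {g g' : K} (hg : g ∈ R i) (hg0 : g ≠ 0) (hg' : g' ∈ R i) (hg0' : g' ≠ 0)
    (r : K) (hr : ∀ x ∈ Set.range (a.c i), g⁻¹ ∈ O x → g'⁻¹ ∈ O x → r ∈ O x) :
    r ∈ R i ⊔ Algebra.adjoin k {g⁻¹, g'⁻¹} := by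
  refine NL1_mem _ r fun P hP ↦ ?_
  let T : Subalgebra k K := R i ⊔ Algebra.adjoin k {g⁻¹, g'⁻¹}
  have hT : R i ≤ T := le_sup_left
  let z : SpecS T := ⟨P, hP⟩
  have key : ∀ f : K, f ∈ R i → f ≠ 0 → f⁻¹ ∈ T → f⁻¹ ∈ O (a.c i (specIncl hT z)) := by
    intro f hf hf0 hfT
    by_contra hcon
    have h1 : (⟨f, hf⟩ : R i) ∈ PrimeSpectrum.asIdeal (specIncl hT z) :=
      (h.prime i _ _).2 (Or.inr hcon)
    have h2 : (⟨f, hT hf⟩ : T) ∈ P := h1
    refine hP.ne_top ((Ideal.eq_top_iff_one _).2 ?_)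
    have h3 : (⟨f⁻¹, hfT⟩ : T) * ⟨f, hT hf⟩ = 1 := Subtype.ext (inv_mul_cancel₀ hf0)
    rw [← h3]
    exact P.mul_mem_left _ h2
  refine NL1_frac h i T hT z r (hr _ ⟨_, rfl⟩ (key g hg hg0 ?_) (key g' hg' hg0' ?_))
  · exact (le_sup_right : Algebra.adjoin k {g⁻¹, g'⁻¹} ≤ _)
      (Algebra.subset_adjoin (Set.mem_insert _ _))
  · exact (le_sup_right : Algebra.adjoin k {g⁻¹, g'⁻¹} ≤ _)
      (Algebra.subset_adjoin (Set.mem_insert_of_mem _ rfl))

/-- Basic open sets form a basis; quasi-compactness: if every point `x` of the chart `i` has an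
open neighbourhood `V x`, there are finitely many elements `g l` of `R i` which generate the unit
ideal and points `x l`, such that all points of the chart where `g l` is invertible lie in
`V (x l)`. -/
theorem exists_finite_cover (h : FLIP.LocData a O) (i : ι) (V : X.left → Set X.left)
    (hV : ∀ x ∈ Set.range (a.c i), IsOpen (V x) ∧ x ∈ V x) :
    ∃ (n : ℕ) (g : Fin n → R i) (x : Fin n → X.left), (∀ l, g l ≠ 0) ∧
      (∀ l, x l ∈ Set.range (a.c i)) ∧ Ideal.span (Set.range g) = ⊤ ∧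
      ∀ l, ∀ y ∈ Set.range (a.c i), ((g l : K))⁻¹ ∈ O y → y ∈ V (x l) := by
  have hf : ∀ y : SpecS (R i), ∃ f : R i, f ∉ PrimeSpectrum.asIdeal y ∧
      ∀ z : SpecS (R i), f ∉ PrimeSpectrum.asIdeal z → a.c i z ∈ V (a.c i y) := by
    intro y
    obtain ⟨h1, h2⟩ := hV (a.c i y) ⟨y, rfl⟩
    have h3 : IsOpen ((a.c i) ⁻¹' (V (a.c i y))) := h1.preimage (a.c i).continuous
    obtain ⟨U, ⟨f, rfl⟩, hU1, hU2⟩ :=
      (PrimeSpectrum.isTopologicalBasis_basic_opens (R := R i)).exists_subset_of_mem_open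
        (a := y) (u := (a.c i) ⁻¹' (V (a.c i y))) h2 h3
    exact ⟨f, hU1, fun z hz ↦ hU2 hz⟩
  choose f hf1 hf2 using hf
  have hf0 : ∀ y, f y ≠ 0 := fun y h0 ↦ hf1 y ((h.prime i y _).2 (Or.inl (by rw [h0]; rfl)))
  have hspan : Ideal.span (Set.range f) = ⊤ := by
    by_contra hcon
    obtain ⟨M, hM, hle⟩ := Ideal.exists_le_maximal _ hcon
    exact hf1 ⟨M, hM.isPrime⟩ (hle (Ideal.subset_span ⟨_, rfl⟩))
  obtain ⟨s, hs, hs'⟩ := (Ideal.span_eq_top_iff_finite _).mp hspan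
  have hex : ∀ t : s, ∃ y, f y = t := fun t ↦ hs t.2
  choose y hy using hex
  refine ⟨s.card, fun l ↦ (s.equivFin.symm l).1, fun l ↦ a.c i (y (s.equivFin.symm l)), ?_, ?_, ?_,
    ?_⟩
  · intro l h0
    exact hf0 (y (s.equivFin.symm l)) ((hy _).trans h0)
  · intro l
    exact ⟨_, rfl⟩
  · have e : Set.range (fun l ↦ ((s.equivFin.symm l).1 : R i)) = (s : Set (R i)) := by
      ext t
      constructor
      · rintro ⟨l, rfl⟩
        exact (s.equivFin.symm l).2
      · intro ht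
        refine ⟨s.equivFin ⟨t, ht⟩, ?_⟩
        change ((s.equivFin.symm (s.equivFin ⟨t, ht⟩)).1 : R i) = t
        rw [Equiv.symm_apply_apply]
    rw [e]
    exact hs'
  · rintro l _ ⟨z, rfl⟩ hz
    refine hf2 (y (s.equivFin.symm l)) z ?_
    intro hcon
    rcases (h.prime i z _).1 hcon with h2 | h2
    · exact hf0 (y (s.equivFin.symm l)) (Subtype.ext h2)
    · rw [hy] at h2
      exact h2 hz

/-- Unit ideal: every point of the chart is in one of the basic open sets. -/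
theorem exists_inv_mem (h : FLIP.LocData a O) (i : ι) {n : ℕ} (g : Fin n → R i)
    (hg : ∀ l, g l ≠ 0) (h1 : Ideal.span (Set.range g) = ⊤) (y : X.left)
    (hy : y ∈ Set.range (a.c i)) : ∃ l, ((g l : K))⁻¹ ∈ O y := by
  obtain ⟨z, rfl⟩ := hy
  by_contra hcon
  push Not at hcon
  have h2 : Ideal.span (Set.range g) ≤ PrimeSpectrum.asIdeal z := by
    rw [Ideal.span_le]
    rintro _ ⟨l, rfl⟩
    exact (h.prime i z _).2 (Or.inr (hcon l))
  rw [h1] at h2
  exact (PrimeSpectrum.isPrime z).ne_top (top_le_iff.1 h2)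

end H1F
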