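import Pool.Agent.Lib.H1F.NLS.NL1

/-!
# H1F, NLS, chunk NL2: a lift of the local rings gives a lift of the rings of the charts
-/

open CategoryTheory CategoryTheory.Limits AlgebraicGeometry Order

universe u

namespace H1F

variable {k : Type u} [Field k] {K : Type u} [Field K] [Algebra k K]
  {ι : Type} [Finite ι] [Nonempty ι] {R : ι → Subalgebra k K}
  {X : Over (Spec (CommRingCat.of k))} {a : Atlas R X} {O : X.left → Subalgebra k K}

section

omit [Finite ι] [Nonempty ι]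

theorem NL2_smul_eq {p : ℕ} {Y : Type u} [TopologicalSpace Y] {O : Y → Subalgebra k K}
    (F : LocLift p Y O) {x y : F.L} (h : F.π x = F.π y) : (p : F.L) * x = (p : F.L) * y := by
  have h1 : F.π (x - y) = 0 := by rw [map_sub, h, sub_self]
  have h2 := (F.ann _).2 h1
  rw [mul_sub] at h2
  exact sub_eq_zero.1 h2

theorem NL2_eq_of_smul {p : ℕ} {Y : Type u} [TopologicalSpace Y] {O : Y → Subalgebra k K}
    (F : LocLift p Y O) {x y : F.L} (h : (p : F.L) * x = (p : F.L) * y) : F.π x = F.π y := by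
  have h1 : (p : F.L) * (x - y) = 0 := by rw [mul_sub, h, sub_self]
  have h2 := (F.ann _).1 h1
  rw [map_sub] at h2
  exact sub_eq_zero.1 h2

theorem NL2_map_smul {p : ℕ} {Y : Type u} [TopologicalSpace Y] {O : Y → Subalgebra k K}
    (F : LocLift p Y O) (x : F.L) : F.π ((p : F.L) * x) = 0 :=
  (F.ker _).2 ⟨x, rfl⟩

/-- `p x ∈ M y` iff `π x ∈ O y`. -/
theorem NL2_smul_mem {p : ℕ} {Y : Type u} [TopologicalSpace Y] {O : Y → Subalgebra k K}
    (F : LocLift p Y O) (y : Y) {x : F.L} (h : F.π x ∈ O y) : (p : F.L) * x ∈ F.M y := by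
  obtain ⟨z, hz, hz'⟩ := F.lift y _ h
  rw [← NL2_smul_eq F hz']
  exact (F.M y).mul_mem (natCast_mem _ _) hz

theorem NL2_mem_of_smul {p : ℕ} {Y : Type u} [TopologicalSpace Y] {O : Y → Subalgebra k K}
    (F : LocLift p Y O) (y : Y) {x : F.L} (h : (p : F.L) * x ∈ F.M y) : F.π x ∈ O y := by
  obtain ⟨b, hb, hb'⟩ := F.ker_loc y _ h (NL2_map_smul F x)
  rw [NL2_eq_of_smul F hb']
  exact F.map y b hb

end

/-- Functions on the chart `i` lift.  Proof: let `r ∈ R i`.  Every point `x` of the chart has a lift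
`b x ∈ M x` of `r`, which lies in `M y` for `y` in an open neighbourhood `V x`.  Take the finite cover
`g l, x l` (`exists_finite_cover`), `b l = b (x l)`, and one lift `b₀` of `r` in `L`;
`b l = b₀ + p u l`, `G l = π (u l)`.  For `y` in the chart with `g l, g m` invertible at `y`:
`b l - b m = p (u l - u m) ∈ M y` has reduction `0`, so (`ker_loc`, `ann`) `G l - G m ∈ O y`; hence
`G l - G m ∈ R i [1/g l, 1/g m]` (`mem_away_of_forall`).  By `cech` there is `G₀` with
`G₀ - G l ∈ R i [1/g l]`; let `π u₀ = G₀` and `b = b₀ + p u₀ = b l + p (u₀ - u l)`.  It lies in `M y` for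
all `y` in the chart (`exists_inv_mem`): `π (u₀ - u l) ∈ O y` has a lift `z ∈ M y`, and
`p (u₀ - u l) = p z`. -/
theorem LocLift.exists_section {p : ℕ} (F : LocLift p X.left O) (h : FLIP.LocData a O)
    (hR : ∀ i, IsFractionRing (R i) K) (i : ι) {r : K} (hr : r ∈ R i) :
    ∃ b : F.L, (∀ x ∈ Set.range (a.c i), b ∈ F.M x) ∧ F.π b = r := by
  classical
  obtain ⟨b₀, hb₀⟩ := F.surj r
  have hmem : ∀ x ∈ Set.range (a.c i), R i ≤ O x := by
    rintro _ ⟨y, rfl⟩
    exact h.le i y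
  have hex : ∀ x : X.left, ∃ b : F.L, F.π b = r ∧ (x ∈ Set.range (a.c i) → b ∈ F.M x) := by
    intro x
    by_cases hx : x ∈ Set.range (a.c i)
    · obtain ⟨b, hb, hb'⟩ := F.lift x r (hmem x hx hr)
      exact ⟨b, hb', fun _ ↦ hb⟩
    · exact ⟨b₀, hb₀, fun hx' ↦ absurd hx' hx⟩
  choose b hb1 hb2 using hex
  obtain ⟨n, g, xs, hg0, hxs, hspan, hcov⟩ := exists_finite_cover h i (fun x ↦ {y | b x ∈ F.M y})
    (fun x hx ↦ ⟨F.isOpen (b x), hb2 x hx⟩)
  have hu : ∀ l, ∃ u : F.L, b (xs l) - b₀ = (p : F.L) * u := by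
    intro l
    refine (F.ker _).1 ?_
    rw [map_sub, hb1, hb₀, sub_self]
  choose u hu using hu
  have hgK : ∀ l, (g l : K) ≠ 0 := fun l h0 ↦ hg0 l (Subtype.ext h0)
  obtain ⟨G₀, hG₀⟩ := cech (R i) g hg0 hspan (fun l ↦ F.π (u l)) (by
    intro l m
    refine mem_away_of_forall h hR i (g l).2 (hgK l) (g m).2 (hgK m) _ ?_
    intro y hy h1 h2
    have e1 : b (xs l) ∈ F.M y := hcov l y hy h1
    have e2 : b (xs m) ∈ F.M y := hcov m y hy h2
    have e3 : (p : F.L) * (u l - u m) ∈ F.M y := by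
      have e4 : (p : F.L) * (u l - u m) = b (xs l) - b (xs m) := by
        rw [mul_sub, ← hu, ← hu]
        ring
      rw [e4]
      exact (F.M y).sub_mem e1 e2
    have e5 := NL2_mem_of_smul F y e3
    rw [map_sub] at e5
    exact e5)
  obtain ⟨u₀, hu₀⟩ := F.surj G₀
  refine ⟨b₀ + (p : F.L) * u₀, ?_, ?_⟩
  · intro y hy
    obtain ⟨l, hl⟩ := exists_inv_mem h i g hg0 hspan y hy
    have e1 : b (xs l) ∈ F.M y := hcov l y hy hl
    have e2 : F.π (u₀ - u l) ∈ O y := by
      rw [map_sub, hu₀]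
      have e3 : R i ⊔ Algebra.adjoin k {((g l : K))⁻¹} ≤ O y := by
        refine sup_le (hmem y hy) (Algebra.adjoin_le ?_)
        rw [Set.singleton_subset_iff]
        exact hl
      exact e3 (hG₀ l)
    have e4 : b₀ + (p : F.L) * u₀ = b (xs l) + (p : F.L) * (u₀ - u l) := by
      rw [mul_sub, ← hu]
      ring
    rw [e4]
    exact (F.M y).add_mem e1 (NL2_smul_mem F y e2)
  · rw [map_add, hb₀, NL2_map_smul, add_zero]

/-- `S i = ⋂ M x` over the points of the chart `i`, `T i j = ⋂ M x` over the points of the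
intersection of the charts. -/
theorem LocLift.exists_liftedFamily {p : ℕ} (F : LocLift p X.left O) (h : FLIP.LocData a O)
    (hR : ∀ i, IsFractionRing (R i) K) : Nonempty (LiftedFamily.{u, u, 0, u} p R) := by
  have hmem : ∀ i, ∀ x ∈ Set.range (a.c i), R i ≤ O x := by
    rintro i _ ⟨y, rfl⟩
    exact h.le i y
  refine ⟨{
    L := F.L
    π := F.π
    surj := F.surj
    ker := F.ker
    ann := F.ann
    S := fun i ↦ ⨅ x : {x : X.left // x ∈ Set.range (a.c i)}, F.M x
    T := fun i j ↦ ⨅ x : {x : X.left // x ∈ Set.range (a.c i) ∧ x ∈ Set.range (a.c j)}, F.M x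
    le_left := ?_
    le_right := ?_
    map := ?_
    lift := ?_
    mul_mem := ?_
    of_mul_mem := ?_ }⟩
  · intro c d x hx
    rw [Subring.mem_iInf] at hx ⊢
    intro y
    exact hx ⟨y.1, y.2.1⟩
  · intro c d x hx
    rw [Subring.mem_iInf] at hx ⊢
    intro y
    exact hx ⟨y.1, y.2.2⟩
  · intro c x hx
    rw [Subring.mem_iInf] at hx
    exact mem_of_forall h hR c _ fun y hy ↦ F.map y x (hx ⟨y, hy⟩)
  · intro c r hr
    obtain ⟨b, hb, hb'⟩ := F.exists_section h hR c hr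
    refine ⟨b, ?_, hb'⟩
    rw [Subring.mem_iInf]
    exact fun y ↦ hb y.1 y.2
  · intro c x hx
    rw [Subring.mem_iInf]
    exact fun y ↦ NL2_smul_mem F y.1 (hmem c y.1 y.2 hx)
  · intro c d x hx
    rw [Subring.mem_iInf] at hx
    exact mem_sup_of_forall h hR c d _ fun y hy hy' ↦ NL2_mem_of_smul F y (hx ⟨y, hy, hy'⟩)

/-- Restriction to some of the rings. -/
theorem LiftedFamily.restrict {p : ℕ} {κ : Type} (F : LiftedFamily.{u, u, 0, u} p R) (φ : κ → ι) :
    Nonempty (LiftedFamily.{u, u, 0, u} p (fun j ↦ R (φ j))) :=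
  ⟨{
    L := F.L
    π := F.π
    surj := F.surj
    ker := F.ker
    ann := F.ann
    S := fun i ↦ F.S (φ i)
    T := fun i j ↦ F.T (φ i) (φ j)
    le_left := fun c d ↦ F.le_left (φ c) (φ d)
    le_right := fun c d ↦ F.le_right (φ c) (φ d)
    map := fun c ↦ F.map (φ c)
    lift := fun c ↦ F.lift (φ c)
    mul_mem := fun c ↦ F.mul_mem (φ c)
    of_mul_mem := fun c d ↦ F.of_mul_mem (φ c) (φ d) }⟩

end H1F
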