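import Pool.Agent.Lib.H1F.LIFT.L2

/-!
# H1F, NLS, chunk NL4: flat schemes over `W` and their reduction
-/

open CategoryTheory CategoryTheory.Limits AlgebraicGeometry Order

universe u

namespace H1F

/-- A pushout of a surjection whose kernel is generated by `ϖ`. -/
theorem NL4_pushout {W k A B : CommRingCat.{u}} {α : W ⟶ A} {ρ : W ⟶ k} {π : A ⟶ B} {β : k ⟶ B}
    (h : IsPushout α ρ π β) (hρ : Function.Surjective ρ.hom) {ϖ : W}
    (hker : ∀ x, ρ.hom x = 0 ↔ ∃ y, x = ϖ * y) :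
    Function.Surjective π.hom ∧ ∀ a, π.hom a = 0 ↔ ∃ b, a = α.hom ϖ * b := by
  let I : Ideal A := Ideal.span {α.hom ϖ}
  let q : A →+* A ⧸ I := Ideal.Quotient.mk I
  have hq : Function.Surjective q := Ideal.Quotient.mk_surjective
  have hqk : ∀ a, q a = 0 ↔ ∃ b, a = α.hom ϖ * b := by
    intro a
    rw [Ideal.Quotient.eq_zero_iff_mem, Ideal.mem_span_singleton]
    exact Iff.rfl
  have hle : RingHom.ker ρ.hom ≤ RingHom.ker (q.comp α.hom) := by
    intro x hx
    obtain ⟨y, rfl⟩ := (hker x).1 hx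
    rw [RingHom.mem_ker, RingHom.comp_apply, map_mul, hqk]
    exact ⟨_, rfl⟩
  let β' : k →+* A ⧸ I := ρ.hom.liftOfSurjective hρ ⟨q.comp α.hom, hle⟩
  have hcomm : q.comp α.hom = β'.comp ρ.hom :=
    (RingHom.liftOfRightInverse_comp ρ.hom _ (Function.rightInverse_surjInv hρ) ⟨_, hle⟩).symm
  have h' : IsPushout α ρ (CommRingCat.ofHom q) (CommRingCat.ofHom β') := by
    refine isPushout_of_surjective ρ.hom hρ α.hom β' q hq hcomm ?_
    intro a ha
    obtain ⟨b, hb⟩ := (hqk a).1 ha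
    refine ⟨ϖ, b, (hker ϖ).2 ⟨1, (mul_one _).symm⟩, hb⟩
  let e := h'.isoIsPushout _ _ h
  have he : CommRingCat.ofHom q ≫ e.hom = π := h'.inl_isoIsPushout_hom _ _ h
  have hinj : Function.Injective e.hom.hom := by
    intro x y hxy
    have h1 : ∀ z, e.inv.hom (e.hom.hom z) = z := fun z ↦ by
      have := congrArg (fun q ↦ q.hom z) e.hom_inv_id
      exact this
    rw [← h1 x, ← h1 y, hxy]
  have hsurj : Function.Surjective e.hom.hom := by
    intro x
    refine ⟨e.inv.hom x, ?_⟩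
    exact congrArg (fun q ↦ q.hom x) e.inv_hom_id
  have hπ : ∀ a, π.hom a = e.hom.hom (q a) := fun a ↦ by
    rw [← he]
    rfl
  constructor
  · intro b
    obtain ⟨c, rfl⟩ := hsurj b
    obtain ⟨a, rfl⟩ := hq c
    exact ⟨a, hπ a⟩
  · intro a
    rw [hπ, map_eq_zero_iff _ hinj]
    exact hqk a

/-- Flatness in terms of elements. -/
theorem NL4_flat {W A : Type u} [CommRing W] [CommRing A] (α : W →+* A) (hα : α.Flat) {ϖ : W}
    (hk : ∀ x, ϖ * x = 0 → ∃ y, x = ϖ * y) (s : A) (hs : α ϖ * s = 0) : ∃ t, s = α ϖ * t := by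
  algebraize [α]
  obtain ⟨n, a, y, hy, ha⟩ := Module.Flat.isTrivialRelation_of_sum_smul_eq_zero (R := W) (M := A)
    (ι := Fin 1) (f := fun _ ↦ ϖ) (x := fun _ ↦ s) (by
      simp only [Finset.univ_unique, Finset.sum_const, Finset.card_singleton, one_smul]
      rw [Algebra.smul_def]
      exact hs)
  have h6 : ∀ j, ∃ b, a 0 j = ϖ * b := fun j ↦ by
    have := ha j
    rw [Fin.sum_univ_one] at this
    exact hk _ this
  choose b hb using h6
  refine ⟨∑ j, α (b j) * y j, ?_⟩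
  have h7 : s = ∑ j, a 0 j • y j := hy 0
  rw [h7, Finset.mul_sum]
  refine Finset.sum_congr rfl fun j _ ↦ ?_
  rw [hb j, ← mul_assoc, ← map_mul, Algebra.smul_def]
  rfl

section

variable {W k : Type u} [CommRing W] [Field k] (ρ : W →+* k) (hρ : Function.Surjective ρ) {ϖ : W}
  (hker : ∀ x, ρ x = 0 ↔ ∃ y, x = ϖ * y) (hann : ∀ x, ϖ * x = 0 ↔ ρ x = 0)
  {𝒳 X : Scheme.{u}} (i : X ⟶ 𝒳) (f : X ⟶ Spec (CommRingCat.of k))
  (g : 𝒳 ⟶ Spec (CommRingCat.of W))
  (hp : IsPullback i f g (Spec.map (CommRingCat.ofHom ρ)))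

include hρ hp in
/-- Base change of a closed immersion. -/
theorem isClosedImmersion_of_isPullback : IsClosedImmersion i := by
  have : IsClosedImmersion (Spec.map (CommRingCat.ofHom ρ)) :=
    IsClosedImmersion.spec_of_surjective _ hρ
  exact MorphismProperty.of_isPullback hp.flip this

include hρ hp hker hann in
/-- The reduction is a homeomorphism: the kernel of `ρ` is nilpotent (`ϖ * ϖ = 0`), so
`Spec k → Spec W` is surjective. -/
theorem surjective_of_isPullback : Function.Surjective i := by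
  have h1 : Surjective (Spec.map (CommRingCat.ofHom ρ)) := by
    refine ⟨?_⟩
    intro P
    have hϖ : ϖ * ϖ = 0 := (hann ϖ).2 ((hker ϖ).2 ⟨1, (mul_one _).symm⟩)
    have hP : RingHom.ker ρ ≤ P.asIdeal := by
      intro x hx
      obtain ⟨y, rfl⟩ := (hker x).1 hx
      apply Ideal.mul_mem_right
      have := P.isPrime
      have h2 : ϖ * ϖ ∈ P.asIdeal := by rw [hϖ]; exact Ideal.zero_mem _
      exact (this.mem_or_mem h2).elim id id
    have h3 : Set.range (PrimeSpectrum.comap ρ) = PrimeSpectrum.zeroLocus (RingHom.ker ρ) :=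
      range_comap_of_surjective _ ρ hρ
    have h4 : P ∈ Set.range (PrimeSpectrum.comap ρ) := by
      rw [h3]
      exact hP
    exact h4
  have h2 : Surjective i := MorphismProperty.of_isPullback hp.flip h1
  exact h2.surj

theorem NL4_specMap_appLE (ρ : W →+* k) :
    (Spec.map (CommRingCat.ofHom ρ)).appLE ⊤ ⊤ le_top =
      (Scheme.ΓSpecIso (CommRingCat.of W)).hom ≫ CommRingCat.ofHom ρ ≫
        (Scheme.ΓSpecIso (CommRingCat.of k)).inv := by
  rw [← Category.assoc, ← Scheme.ΓSpecIso_naturality, Category.assoc, Iso.hom_inv_id,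
    Category.comp_id]
  exact Scheme.Hom.appLE_eq_app _

include hρ hp hker in
/-- On an affine open set `V` of `𝒳` the reduction map of the rings of sections is surjective with
kernel generated by `ϖ`.  (Paste the pullback squares; `Spec (A / ϖ A)` is the fibre product of
`Spec A` and `Spec k`, `isPushout_of_surjective`.) -/
theorem sections_reduction (V : 𝒳.Opens) (hV : IsAffineOpen V) :
    Function.Surjective (i.app V).hom ∧ ∀ s : Γ(𝒳, V), (i.app V).hom s = 0 ↔
      ∃ t : Γ(𝒳, V), s = ((Scheme.ΓSpecIso (CommRingCat.of W)).inv ≫ g.appTop ≫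
        𝒳.presheaf.map (homOfLE le_top).op).hom ϖ * t := by
  have hUS : IsAffineOpen (⊤ : (Spec (CommRingCat.of W)).Opens) := isAffineOpen_top _
  have hUT : IsAffineOpen (⊤ : (Spec (CommRingCat.of k)).Opens) := isAffineOpen_top _
  have h1 := isIso_pushoutSection_of_isAffineOpen hp (US := ⊤) (UT := ⊤) (UX := V)
    (UY := i ⁻¹ᵁ V) le_top le_top (by simp) hUS hUT hV
  have h2 := (isIso_pushoutSection_iff ..).mp h1
  have hsp := NL4_specMap_appLE ρ
  have hval : ∀ x, ((Spec.map (CommRingCat.ofHom ρ)).appLE ⊤ ⊤ le_top).hom x =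
      (Scheme.ΓSpecIso (CommRingCat.of k)).inv.hom
        (ρ ((Scheme.ΓSpecIso (CommRingCat.of W)).hom.hom x)) := fun x ↦ by
    rw [hsp]
    rfl
  have hinvk : ∀ y, (Scheme.ΓSpecIso (CommRingCat.of k)).hom.hom
      ((Scheme.ΓSpecIso (CommRingCat.of k)).inv.hom y) = y := fun y ↦
    congrArg (fun q ↦ q.hom y) (Scheme.ΓSpecIso (CommRingCat.of k)).inv_hom_id
  have hinvk' : ∀ y, (Scheme.ΓSpecIso (CommRingCat.of k)).inv.hom
      ((Scheme.ΓSpecIso (CommRingCat.of k)).hom.hom y) = y := fun y ↦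
    congrArg (fun q ↦ q.hom y) (Scheme.ΓSpecIso (CommRingCat.of k)).hom_inv_id
  have hinvW : ∀ y, (Scheme.ΓSpecIso (CommRingCat.of W)).hom.hom
      ((Scheme.ΓSpecIso (CommRingCat.of W)).inv.hom y) = y := fun y ↦
    congrArg (fun q ↦ q.hom y) (Scheme.ΓSpecIso (CommRingCat.of W)).inv_hom_id
  have hinvW' : ∀ y, (Scheme.ΓSpecIso (CommRingCat.of W)).inv.hom
      ((Scheme.ΓSpecIso (CommRingCat.of W)).hom.hom y) = y := fun y ↦
    congrArg (fun q ↦ q.hom y) (Scheme.ΓSpecIso (CommRingCat.of W)).hom_inv_id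
  have h3 := NL4_pushout h2 (fun y ↦ by
      obtain ⟨z, hz⟩ := hρ ((Scheme.ΓSpecIso (CommRingCat.of k)).hom.hom y)
      refine ⟨(Scheme.ΓSpecIso (CommRingCat.of W)).inv.hom z, ?_⟩
      rw [hval, hinvW, hz, hinvk'])
    (ϖ := (Scheme.ΓSpecIso (CommRingCat.of W)).inv.hom ϖ) (fun x ↦ by
      rw [hval]
      constructor
      · intro hx
        have h4 : ρ ((Scheme.ΓSpecIso (CommRingCat.of W)).hom.hom x) = 0 := by
          have := congrArg (Scheme.ΓSpecIso (CommRingCat.of k)).hom.hom hx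
          rw [hinvk, map_zero] at this
          exact this
        obtain ⟨y, hy⟩ := (hker _).1 h4
        refine ⟨(Scheme.ΓSpecIso (CommRingCat.of W)).inv.hom y, ?_⟩
        rw [← map_mul, ← hy, hinvW']
      · rintro ⟨y, rfl⟩
        rw [map_mul, hinvW, (hker _).2 ⟨_, rfl⟩, map_zero])
  have h5 : i.appLE V (i ⁻¹ᵁ V) le_rfl = i.app V := Scheme.Hom.appLE_eq_app _
  rw [h5] at h3
  exact h3

include hker hann in
/-- Flatness: `ϖ s = 0` implies that `s` is a multiple of `ϖ`. -/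
theorem sections_flat [Flat g] (V : 𝒳.Opens) (hV : IsAffineOpen V) (s : Γ(𝒳, V))
    (hs : ((Scheme.ΓSpecIso (CommRingCat.of W)).inv ≫ g.appTop ≫
        𝒳.presheaf.map (homOfLE le_top).op).hom ϖ * s = 0) :
    ∃ t : Γ(𝒳, V), s = ((Scheme.ΓSpecIso (CommRingCat.of W)).inv ≫ g.appTop ≫
        𝒳.presheaf.map (homOfLE le_top).op).hom ϖ * t := by
  have hUS : IsAffineOpen (⊤ : (Spec (CommRingCat.of W)).Opens) := isAffineOpen_top _
  have h1 : (g.appLE ⊤ V le_top).hom.Flat := g.flat_appLE hUS hV le_top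
  have h2 : (Scheme.ΓSpecIso (CommRingCat.of W)).inv.hom.Flat :=
    RingHom.Flat.of_bijective
      (ConcreteCategory.bijective_of_isIso (Scheme.ΓSpecIso (CommRingCat.of W)).inv)
  have h3 : (((g.appLE ⊤ V le_top).hom).comp
      (Scheme.ΓSpecIso (CommRingCat.of W)).inv.hom).Flat := RingHom.Flat.comp h2 h1
  exact NL4_flat _ h3 (fun x hx ↦ (hker x).1 ((hann x).1 hx)) s hs

end

end H1F
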